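import Pool.Agent.helper48.SG.SpecH

set_option autoImplicit false

open MeasureTheory Set Metric Filter Topology
open scoped ENNReal NNReal ComplexConjugate

namespace Pool.Agent.SG

theorem H04 (h5 : P05_stmt) (h10 : B10_stmt) (h18 : B18_stmt) : H04_stmt := by
  intro Γ _ A W
  obtain ⟨M, hM1, hM⟩ := h10 Γ A W.S
  have hMsq : 1 ≤ M ^ 2 := by nlinarith
  refine ⟨4 * M ^ 2, by linarith, ?_⟩
  intro u t hu ht hMt x w hx hexi
  have hM0 : 0 < M := by linarith
  have ht1 : t ≤ 1 := by nlinarith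
  obtain ⟨-, -, h3, -⟩ := h5 Γ W {y | A.Hu u y ≤ t}
  obtain ⟨hwD, hw⟩ := h3 x w hexi
  have htw : t < A.Hu u w := by
    by_contra hcon
    exact hwD (not_lt.mp hcon)
  have hw' : ∃ y ∈ {y | A.Hu u y ≤ t}, ∃ s ∈ W.S, w = y * s := by
    rcases hw with hw | hw
    · exfalso
      rw [hw] at htw
      linarith
    · exact hw
  obtain ⟨y, hy, s, hs, rfl⟩ := hw'
  have hy' : A.Hu u y ≤ t := hy
  obtain ⟨-, hk2, -, hu4⟩ := hM y s hs
  obtain ⟨hH1, hH2⟩ := hu4 u hu
  have hH2' := hH2 (by linarith)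
  have hHw : A.Hu u (y * s) ≤ M * t := le_trans hH1 (mul_le_mul_of_nonneg_left hy' hM0.le)
  have hMM : M * t ≤ 4 * M ^ 2 * t := by
    apply mul_le_mul_of_nonneg_right _ ht.le
    nlinarith
  have habs : A.Hu u (y * s) - A.Hu u y ≤ M * A.kk y := le_trans (le_abs_self _) hH2'
  have hky : 0 ≤ A.kk y := by
    have h0 : 0 ≤ M * A.kk y := le_trans (abs_nonneg _) hH2'
    exact nonneg_of_mul_nonneg_right h0 hM0
  have hkw : 0 ≤ A.kk (y * s) := by
    have h0 : 0 ≤ M * A.kk (y * s) := le_trans hky hk2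
    exact nonneg_of_mul_nonneg_right h0 hM0
  have hMk : M * A.kk y ≤ M ^ 2 * A.kk (y * s) := by
    calc M * A.kk y ≤ M * (M * A.kk (y * s)) := mul_le_mul_of_nonneg_left hk2 hM0.le
      _ = M ^ 2 * A.kk (y * s) := by ring
  refine ⟨htw, le_trans hHw hMM, ?_, ?_⟩
  · rw [abs_of_pos (by linarith)]
    have h4 : M ^ 2 * A.kk (y * s) ≤ 4 * M ^ 2 * A.kk (y * s) := by
      apply mul_le_mul_of_nonneg_right _ hkw
      nlinarith
    linarith
  · obtain ⟨-, -, h18c, -⟩ := h18 Γ A u hu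
    have hle1 : A.Hu u (y * s) ≤ 1 := by linarith
    have h5' := (h18c (y * s) hle1).1
    have h6 : 4 * (M * t) ≤ 4 * M ^ 2 * t := by
      have : M * t ≤ M ^ 2 * t := by
        apply mul_le_mul_of_nonneg_right _ ht.le
        nlinarith
      linarith
    linarith

end Pool.Agent.SG
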