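import Pool.Agent.helper17.SG.SpecP

/-!
# Project sg: P07 (balayage identity for finite `D`)
-/

set_option autoImplicit false

open MeasureTheory Set Metric Filter Topology
open scoped ENNReal NNReal ComplexConjugate

namespace Pool.Agent.SG

section
variable {Γ : Type} [Group Γ]

open Classical in
/-- probability to stay in `D` during the times `0..n` -/
noncomputable def P07_q (W : Walk Γ) (D : Set Γ) : ℕ → Γ → ℝ≥0∞
  | 0, x => if x ∈ D then 1 else 0
  | n + 1, x => if x ∈ D then ∑ s ∈ W.S, W.μ s * P07_q W D n (x * s) else 0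

theorem P07_q_le (W : Walk Γ) (D : Set Γ) (n : ℕ) : ∀ x, P07_q W D n x ≤ 1 := by
  induction n with
  | zero =>
    intro x
    unfold P07_q
    split_ifs
    · exact le_refl _
    · exact zero_le
  | succ n ih =>
    intro x
    unfold P07_q
    split_ifs
    · rw [← W.sum]
      refine Finset.sum_le_sum (fun s _ => ?_)
      calc W.μ s * P07_q W D n (x * s) ≤ W.μ s * 1 := mul_le_mul_right (ih _) _
        _ = W.μ s := mul_one _
    · exact zero_le

theorem P07_q_out (W : Walk Γ) (D : Set Γ) (n : ℕ) (x : Γ) (hx : x ∉ D) : P07_q W D n x = 0 := by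
  cases n with
  | zero => unfold P07_q; rw [if_neg hx]
  | succ n => unfold P07_q; rw [if_neg hx]

theorem P07_q_succ (W : Walk Γ) (D : Set Γ) (n : ℕ) (x : Γ) (hx : x ∈ D) :
    P07_q W D (n + 1) x = ∑ s ∈ W.S, W.μ s * P07_q W D n (x * s) := by
  rw [P07_q, if_pos hx]

theorem P07_q_zero (W : Walk Γ) (D : Set Γ) (x : Γ) (hx : x ∈ D) :
    P07_q W D 0 x = 1 := by
  rw [P07_q, if_pos hx]

theorem P07_q_anti (W : Walk Γ) (D : Set Γ) (n : ℕ) :
    ∀ x, P07_q W D (n + 1) x ≤ P07_q W D n x := by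
  induction n with
  | zero =>
    intro x
    by_cases hx : x ∈ D
    · rw [P07_q_zero W D x hx]
      exact P07_q_le W D _ x
    · rw [P07_q_out W D _ x hx]
      exact zero_le
  | succ n ih =>
    intro x
    by_cases hx : x ∈ D
    · rw [P07_q_succ W D _ x hx, P07_q_succ W D _ x hx]
      exact Finset.sum_le_sum (fun s _ => mul_le_mul_right (ih _) _)
    · rw [P07_q_out W D _ x hx]
      exact zero_le

theorem P07_mu_top (W : Walk Γ) (s : Γ) (hs : s ∈ W.S) : W.μ s ≠ ⊤ := by
  have h1 : W.μ s ≤ 1 := by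
    rw [← W.sum]
    exact Finset.single_le_sum (fun _ _ => zero_le) hs
  exact (h1.trans_lt ENNReal.one_lt_top).ne

theorem P07_eq_one (W : Walk Γ) (c : Γ → ℝ≥0∞) (hc : ∀ s ∈ W.S, c s ≤ 1)
    (h : ∑ s ∈ W.S, W.μ s * c s = 1) : ∀ s ∈ W.S, c s = 1 := by
  classical
  intro s hs
  by_contra hne
  have hlt : c s < 1 := lt_of_le_of_ne (hc s hs) hne
  have h1 : W.μ s * c s < W.μ s := by
    calc W.μ s * c s < W.μ s * 1 :=
          (ENNReal.mul_lt_mul_iff_right (W.pos s hs) (P07_mu_top W s hs)).2 hlt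
      _ = W.μ s := mul_one _
  have h2 : ∑ t ∈ W.S.erase s, W.μ t * c t ≤ ∑ t ∈ W.S.erase s, W.μ t := by
    refine Finset.sum_le_sum (fun t ht => ?_)
    calc W.μ t * c t ≤ W.μ t * 1 := mul_le_mul_right (hc t (Finset.mem_of_mem_erase ht)) _
      _ = W.μ t := mul_one _
  have h3 : ∑ t ∈ W.S.erase s, W.μ t ≠ ⊤ := by
    have h4 : ∑ t ∈ W.S.erase s, W.μ t ≤ 1 := by
      rw [← W.sum]
      exact Finset.sum_le_sum_of_subset (Finset.erase_subset _ _)
    exact (h4.trans_lt ENNReal.one_lt_top).ne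
  have h5 : ∑ t ∈ W.S, W.μ t * c t < ∑ t ∈ W.S, W.μ t := by
    rw [← Finset.add_sum_erase W.S _ hs, ← Finset.add_sum_erase W.S (fun t => W.μ t) hs]
    exact ENNReal.add_lt_add_of_lt_of_le (ne_top_of_le_ne_top h3 h2) h1 h2
  rw [h, W.sum] at h5
  exact lt_irrefl _ h5

theorem P07_lt [Infinite Γ] (W : Walk Γ) (D : Set Γ) (hD : D.Finite) (x : Γ) :
    ∃ n, P07_q W D n x < 1 := by
  by_contra hc
  push Not at hc
  have hone : ∀ n, P07_q W D n x = 1 := fun n => le_antisymm (P07_q_le W D n x) (hc n)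
  have hmem : ∀ y, (∀ n, P07_q W D n y = 1) → y ∈ D := by
    intro y hy
    by_contra hyD
    have h1 := hy 0
    rw [P07_q_out W D 0 y hyD] at h1
    exact zero_ne_one h1
  have hstep : ∀ y, (∀ n, P07_q W D n y = 1) → ∀ s ∈ W.S, ∀ n, P07_q W D n (y * s) = 1 := by
    intro y hy s hs n
    have h1 := hy (n + 1)
    rw [P07_q_succ W D n y (hmem y hy)] at h1
    exact P07_eq_one W (fun s => P07_q W D n (y * s)) (fun s _ => P07_q_le W D n _) h1 s hs
  have hall : ∀ g : Γ, ∀ n, P07_q W D n (x * g) = 1 := by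
    intro g
    have hg : g ∈ Submonoid.closure (W.S : Set Γ) := by rw [W.gen]; trivial
    induction hg using Submonoid.closure_induction_right with
    | one => rw [mul_one]; exact hone
    | mul_right y _ s hs ih =>
      rw [← mul_assoc]
      exact hstep _ ih s hs
  have huniv : (Set.univ : Set Γ) ⊆ D := by
    intro y _
    have h1 := hmem (x * (x⁻¹ * y)) (hall _)
    rwa [mul_inv_cancel_left] at h1
  exact Set.infinite_univ (hD.subset huniv)

theorem P07_theta [Infinite Γ] (W : Walk Γ) (D : Set Γ) (hD : D.Finite) :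
    ∃ (N : ℕ) (θ : ℝ≥0∞), θ < 1 ∧ ∀ x, P07_q W D N x ≤ θ := by
  classical
  choose n hn using P07_lt W D hD
  set N : ℕ := hD.toFinset.sup n with hN
  have hlt : ∀ x ∈ hD.toFinset, P07_q W D N x < 1 := by
    intro x hx
    refine lt_of_le_of_lt ?_ (hn x)
    exact antitone_nat_of_succ_le (f := fun m => P07_q W D m x) (fun m => P07_q_anti W D m x)
      (Finset.le_sup hx)
  refine ⟨N, hD.toFinset.sup (fun x => P07_q W D N x), ?_, ?_⟩
  · rw [Finset.sup_lt_iff (by simp)]
    exact hlt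
  · intro x
    by_cases hx : x ∈ D
    · exact Finset.le_sup (f := fun x => P07_q W D N x) (hD.mem_toFinset.2 hx)
    · rw [P07_q_out W D N x hx]
      exact zero_le

theorem P07_mul (W : Walk Γ) (D : Set Γ) (N : ℕ) (θ : ℝ≥0∞)
    (hθ : ∀ x, P07_q W D N x ≤ θ) (n : ℕ) : ∀ x, P07_q W D (n + N) x ≤ θ * P07_q W D n x := by
  induction n with
  | zero =>
    intro x
    by_cases hx : x ∈ D
    · rw [P07_q_zero W D x hx, mul_one, zero_add]
      exact hθ x
    · rw [P07_q_out W D _ x hx]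
      exact zero_le
  | succ n ih =>
    intro x
    by_cases hx : x ∈ D
    · have h1 : n + 1 + N = (n + N) + 1 := by ring
      rw [h1, P07_q_succ W D _ x hx, P07_q_succ W D _ x hx, Finset.mul_sum]
      refine Finset.sum_le_sum (fun s _ => ?_)
      calc W.μ s * P07_q W D (n + N) (x * s) ≤ W.μ s * (θ * P07_q W D n (x * s)) :=
            mul_le_mul_right (ih _) _
        _ = θ * (W.μ s * P07_q W D n (x * s)) := by ring
    · rw [P07_q_out W D _ x hx]
      exact zero_le

theorem P07_pow (W : Walk Γ) (D : Set Γ) (N : ℕ) (θ : ℝ≥0∞)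
    (hθ : ∀ x, P07_q W D N x ≤ θ) (k : ℕ) : ∀ x, P07_q W D (k * N) x ≤ θ ^ k := by
  induction k with
  | zero =>
    intro x
    rw [pow_zero]
    exact P07_q_le W D _ x
  | succ k ih =>
    intro x
    have h1 : (k + 1) * N = k * N + N := by ring
    rw [h1, pow_succ']
    exact (P07_mul W D N θ hθ (k * N) x).trans (mul_le_mul_right (ih x) _)

open Classical in
theorem P07_exn_out (W : Walk Γ) (D : Set Γ) (n : ℕ) (x w : Γ) (hx : x ∉ D) :
    W.exn D n x w = if x = w then 1 else 0 := by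
  cases n with
  | zero => unfold Walk.exn; rw [if_neg hx]
  | succ n => unfold Walk.exn; rw [if_neg hx]

theorem P07_bd (W : Walk Γ) (D : Set Γ) (h : Γ → ℝ≥0∞) (hh : W.Harm h) (M : ℝ≥0∞)
    (hM : ∀ x, h x ≤ M) (n : ℕ) :
    ∀ x, h x ≤ ∑' w, W.exn D n x w * h w + M * P07_q W D n x := by
  classical
  have hout : ∀ n x, x ∉ D → ∑' w, W.exn D n x w * h w = h x := by
    intro n x hx
    rw [tsum_eq_single x]
    · rw [P07_exn_out W D n x x hx, if_pos rfl, one_mul]
    · intro w hw
      rw [P07_exn_out W D n x w hx, if_neg (fun h => hw h.symm), zero_mul]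
  induction n with
  | zero =>
    intro x
    by_cases hx : x ∈ D
    · rw [P07_q_zero W D x hx, mul_one]
      exact (hM x).trans le_add_self
    · rw [hout 0 x hx]
      exact le_self_add
  | succ n ih =>
    intro x
    by_cases hx : x ∈ D
    · have h1 : ∀ w, W.exn D (n + 1) x w = ∑ s ∈ W.S, W.μ s * W.exn D n (x * s) w := by
        intro w
        rw [Walk.exn, if_pos hx]
      have h2 : ∑' w, W.exn D (n + 1) x w * h w =
          ∑ s ∈ W.S, W.μ s * ∑' w, W.exn D n (x * s) w * h w := by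
        calc ∑' w, W.exn D (n + 1) x w * h w =
              ∑' w, ∑ s ∈ W.S, W.μ s * (W.exn D n (x * s) w * h w) := by
              refine tsum_congr (fun w => ?_)
              rw [h1, Finset.sum_mul]
              exact Finset.sum_congr rfl (fun s _ => mul_assoc _ _ _)
          _ = ∑ s ∈ W.S, ∑' w, W.μ s * (W.exn D n (x * s) w * h w) :=
              Summable.tsum_finsetSum (fun _ _ => ENNReal.summable)
          _ = _ := Finset.sum_congr rfl (fun s _ => ENNReal.tsum_mul_left)
      rw [h2, P07_q_succ W D n x hx, Finset.mul_sum, ← Finset.sum_add_distrib, hh x]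
      refine Finset.sum_le_sum (fun s _ => ?_)
      calc W.μ s * h (x * s) ≤ W.μ s * (∑' w, W.exn D n (x * s) w * h w +
            M * P07_q W D n (x * s)) := mul_le_mul_right (ih _) _
        _ = _ := by ring
    · rw [hout _ x hx]
      exact le_self_add

theorem P07_main [Infinite Γ] (hP06 : P06_stmt) (W : Walk Γ) (D : Set Γ) (hD : D.Finite)
    (h : Γ → ℝ≥0∞) (hh : W.Harm h) (M : ℝ≥0∞) (hMt : M ≠ ⊤) (hM : ∀ x, h x ≤ M) (x : Γ) :
    h x = ∑' w, W.exi D x w * h w := by
  refine le_antisymm ?_ (hP06 Γ W D h hh x)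
  obtain ⟨N, θ, hθ1, hθ⟩ := P07_theta W D hD
  have h1 : ∀ k : ℕ, h x ≤ ∑' w, W.exi D x w * h w + M * θ ^ k := by
    intro k
    refine (P07_bd W D h hh M hM (k * N) x).trans (add_le_add ?_ ?_)
    · refine ENNReal.tsum_le_tsum (fun w => ?_)
      exact mul_le_mul_left (le_iSup (fun n => W.exn D n x w) (k * N)) _
    · exact mul_le_mul_right (P07_pow W D N θ hθ k x) _
  have h2 : Tendsto (fun k : ℕ => ∑' w, W.exi D x w * h w + M * θ ^ k) atTop
      (𝓝 (∑' w, W.exi D x w * h w + M * 0)) := by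
    refine Tendsto.add tendsto_const_nhds ?_
    exact ENNReal.Tendsto.const_mul
      (ENNReal.tendsto_pow_atTop_nhds_zero_of_lt_one hθ1) (Or.inr hMt)
  rw [mul_zero, add_zero] at h2
  exact ge_of_tendsto' h2 h1

end

theorem P07 (hP06 : P06_stmt) : P07_stmt := by
  intro Γ _ _ W D hD
  refine ⟨fun h hh ⟨M, hMt, hM⟩ x => P07_main hP06 W D hD h hh M hMt hM x, fun x => ?_⟩
  have h1 : W.Harm (fun _ => 1) := by
    intro y
    simp only [mul_one]
    exact W.sum.symm
  have h2 := P07_main hP06 W D hD (fun _ => 1) h1 1 ENNReal.one_ne_top (fun _ => le_refl _) x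
  simp only [mul_one] at h2
  exact h2.symm

end Pool.Agent.SG
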