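import Pool.Agent.helper56.SG.SpecG

set_option autoImplicit false

open MeasureTheory Set Metric Filter Topology
open scoped ENNReal NNReal ComplexConjugate
open Pool.Agent.SG

noncomputable section

namespace Pool.Agent.SGG

/-- A holomorphic function on the disc with constant real part is constant. -/
theorem PER_const (g : ℂ → ℂ) (hg : DifferentiableOn ℂ g (ball (0 : ℂ) 1)) (c : ℝ)
    (hc : ∀ z ∈ ball (0 : ℂ) 1, (g z).re = c) :
    ∀ z ∈ ball (0 : ℂ) 1, g z = g 0 := by
  have hA : AnalyticOnNhd ℂ g (ball (0 : ℂ) 1) := hg.analyticOnNhd isOpen_ball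
  have h0 : (0 : ℂ) ∈ ball (0 : ℂ) 1 := mem_ball_self one_pos
  have hP : IsPreconnected (ball (0 : ℂ) 1) := (convex_ball (0 : ℂ) 1).isPreconnected
  rcases hA.is_constant_or_isOpen hP with ⟨w, hw⟩ | hopen
  · intro z hz
    rw [hw z hz, hw 0 h0]
  · exfalso
    have hO : IsOpen (g '' ball (0 : ℂ) 1) := hopen _ (Subset.refl _) isOpen_ball
    have hmem : g 0 ∈ g '' ball (0 : ℂ) 1 := mem_image_of_mem g h0
    obtain ⟨ε, hε, hball⟩ := Metric.isOpen_iff.mp hO (g 0) hmem
    have h1 : g 0 + ((ε / 2 : ℝ) : ℂ) ∈ ball (g 0) ε := by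
      rw [mem_ball, dist_eq_norm, add_sub_cancel_left, Complex.norm_real, Real.norm_eq_abs,
        abs_of_pos (by linarith)]
      linarith
    obtain ⟨z, hz, hzz⟩ := hball h1
    have h2 := hc z hz
    have h3 := hc 0 h0
    rw [hzz, Complex.add_re, Complex.ofReal_re, h3] at h2
    linarith

theorem PER (hACT : ACT_stmt) (hMOB : MOB_stmt) : PER_stmt := by
  intro Γ _ A φ F hF hE
  have h0 : (0 : ℂ) ∈ ball (0 : ℂ) 1 := mem_ball_self one_pos
  have key : ∀ γ, ∀ z ∈ ball (0 : ℂ) 1, F (A.act γ z) - F z = F (A.act γ 0) - F 0 := by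
    intro γ
    have hiso : IsoM (A.a γ) (A.b γ) := ((hACT Γ A 0 h0).1 γ).1
    have hm := hMOB _ _ hiso
    have hdm : DifferentiableOn ℂ (A.act γ) (ball (0 : ℂ) 1) := by
      intro z hz
      exact (hm.2.2.2.2.2.1 z hz).differentiableAt.differentiableWithinAt
    have hmaps : MapsTo (A.act γ) (ball (0 : ℂ) 1) (ball (0 : ℂ) 1) := fun z hz => hm.2.2.1 z hz
    have hd : DifferentiableOn ℂ (fun z => F (A.act γ z) - F z) (ball (0 : ℂ) 1) :=
      (hF.comp hdm hmaps).sub hF
    refine PER_const (fun z => F (A.act γ z) - F z) hd (φ γ) ?_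
    intro z hz
    have h := hE γ z hz
    simp only [Complex.sub_re]
    simp only at h
    linarith
  refine ⟨fun γ => F (A.act γ 0) - F 0, ?_, ?_, ?_⟩
  · intro γ
    have h := hE γ 0 h0
    simp only [Complex.sub_re]
    simp only at h
    linarith
  · intro γ δ
    have hδ : A.act δ 0 ∈ ball (0 : ℂ) 1 := ((hACT Γ A 0 h0).1 δ).2.1
    have hmul : A.act (γ * δ) 0 = A.act γ (A.act δ 0) := (hACT Γ A 0 h0).2.2 γ δ
    have h := key γ (A.act δ 0) hδ
    show F (A.act (γ * δ) 0) - F 0 = (F (A.act γ 0) - F 0) + (F (A.act δ 0) - F 0)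
    rw [hmul, ← h]
    ring
  · intro γ z hz
    have h := key γ z hz
    show F (A.act γ z) = F z + (F (A.act γ 0) - F 0)
    rw [← h]
    ring

end Pool.Agent.SGG
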